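import Pool.Agent.Helper35.PP.MAcard

/-!
# The well-order of type `𝔠` and small families (module M1, second part)
-/

namespace Pool.Agent.Helper35.PP

open Cardinal Set

/-- The well-order of type `𝔠`. -/
abbrev W : Type := (𝔠 : Cardinal.{0}).ord.ToType

theorem mk_W : #W = 𝔠 := by simp [W]

theorem mk_Iio_W (w : W) : #(Set.Iio w) < 𝔠 := by
  simpa using Cardinal.mk_Iio_lt w

theorem mk_Iic_W (w : W) : #(Set.Iic w) < 𝔠 := by
  rw [← Set.Iio_insert]
  refine (Cardinal.mk_insert_le).trans_lt ?_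
  exact Cardinal.add_lt_of_lt Cardinal.aleph0_le_continuum (mk_Iio_W w)
    (Cardinal.one_lt_aleph0.trans Cardinal.aleph0_lt_continuum)

/-- Regularity: a small subset of `W` is strictly bounded. -/
theorem W_bdd (h : MAsc) (S : Set W) (hS : #S < 𝔠) : ∃ w : W, ∀ s ∈ S, s < w := by
  have h1 : ¬ IsCofinal S := by
    intro hc
    have h2 := Order.cof_le hc
    rw [Ordinal.cof_toType, (cont_regular h).cof_ord] at h2
    exact absurd hS (not_lt.mpr h2)
  rw [not_isCofinal_iff] at h1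
  obtain ⟨w, hw⟩ := h1
  exact ⟨w, hw⟩

theorem W_bdd_range (h : MAsc) {I : Type} (hI : #I < 𝔠) (f : I → W) : ∃ w : W, ∀ i, f i < w := by
  obtain ⟨w, hw⟩ := W_bdd h (Set.range f) (Cardinal.mk_range_le.trans_lt hI)
  exact ⟨w, fun i => hw _ ⟨i, rfl⟩⟩

instance : Nonempty W := by
  rw [← Cardinal.mk_ne_zero_iff, mk_W]
  exact Cardinal.continuum_ne_zero

instance : NoMaxOrder W where
  exists_gt w := by
    by_contra hh
    push Not at hh
    have h1 : (Set.univ : Set W) = Set.Iic w := by ext x; simp [hh x]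
    have h2 := mk_Iic_W w
    rw [← h1, Cardinal.mk_univ, mk_W] at h2
    exact lt_irrefl _ h2

theorem mk_fun_le (h : MAsc) {I T : Type} (hI : #I < 𝔠) (hT : #T ≤ 𝔠) : #(I → T) ≤ 𝔠 := by
  rw [← Cardinal.power_def]
  exact (Cardinal.power_le_power_right hT).trans (cont_pow_le h hI)

/-- There are at most `𝔠` subsets of size `< 𝔠` of a set of size `≤ 𝔠`. -/
theorem mk_small_le (h : MAsc) {T : Type} (hT : #T ≤ 𝔠) : #{S : Set T // #S < 𝔠} ≤ 𝔠 := by
  classical
  have hT' : #T ≤ #W := by rw [mk_W]; exact hT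
  obtain ⟨g⟩ := Cardinal.le_def _ _ |>.mp hT'
  have key : ∀ S : {S : Set T // #S < 𝔠}, ∃ p : Σ w : W, Set (Set.Iio w),
      ∀ t : T, t ∈ S.1 ↔ ∃ hh : g t < p.1, (⟨g t, hh⟩ : Set.Iio p.1) ∈ p.2 := by
    intro S
    obtain ⟨w, hw⟩ := W_bdd h (g '' S.1) (Cardinal.mk_image_le.trans_lt S.2)
    refine ⟨⟨w, {x | ∃ t ∈ S.1, g t = x.1}⟩, fun t => ⟨fun ht => ⟨hw _ ⟨t, ht, rfl⟩, t, ht, rfl⟩, ?_⟩⟩
    rintro ⟨_, t', ht', he⟩
    rwa [← g.injective he]
  choose F hF using key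
  have hinj : Function.Injective F := by
    intro S S' hSS
    ext t
    rw [hF S t, hF S' t, hSS]
  refine (Cardinal.mk_le_of_injective hinj).trans ?_
  rw [Cardinal.mk_sigma]
  refine (Cardinal.sum_le_mk_mul_iSup _).trans ?_
  rw [mk_W]
  refine (mul_le_mul' le_rfl (ciSup_le' (a := 𝔠) fun w => ?_)).trans (by simp)
  rw [Cardinal.mk_set]
  exact two_pow_le h (mk_Iio_W w)

end Pool.Agent.Helper35.PP
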