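import Pool.Agent.Helper11.PP.Inf
import Pool.Agent.Helper35.PP.MAtypes

/-!
# The base ultrafilter (module I1 of MP_505789_lc)
-/

set_option autoImplicit false

namespace Pool.Agent.Helper35.PP

open Cardinal Filter Set
open Pool.Agent.Helper11.PP

/-- **Module I1.** -/
theorem st_base : ST_base := by
  intro h
  refine ⟨fun S hS => W_bdd h S hS, ?_⟩
  obtain ⟨U, hU1, hU2, hU3, hU4⟩ := Pool.Agent.H32.PP.exists_base h
  refine ⟨U, ⟨fun k => ?_, fun A hA => ?_, fun g => ?_, ?_⟩⟩
  · have h1 : (Set.Iio k) ∉ U := hU1 _ (Set.finite_Iio k)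
    have h2 : (Set.Iio k)ᶜ ∈ U := Ultrafilter.compl_mem_iff_notMem.mpr h1
    filter_upwards [h2] with n hn
    simpa using hn
  · exact hU2 ℕ (by simpa using Cardinal.aleph0_lt_continuum) A hA
  · obtain ⟨T, hT, k, hk⟩ := hU3 Bool (fun m n => decide (g m < n))
    have hinf : T.Infinite := fun hf => hU1 T hf hT
    refine ⟨T, hT, fun m hm n hn hmn => ?_⟩
    have h1 := hk m hm n hn hmn
    rcases k with _ | _
    · exfalso
      obtain ⟨n', hn', hlt⟩ := hinf.exists_gt (max m (g m))
      have h2 := hk m hm n' hn' ((le_max_left _ _).trans_lt hlt)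
      simp only [decide_eq_false_iff_not, not_lt] at h2
      exact absurd ((le_max_right _ _).trans_lt hlt) (not_lt.mpr h2)
    · simpa using h1
  · intro a _ _ I P hI hP
    obtain ⟨e, he⟩ := exists_surjective_nat a
    obtain ⟨f, hf⟩ := hU4 I hI (fun i n => {j | P i n (e j)}) (fun F => by
      filter_upwards [hP F] with n hn
      obtain ⟨x, hx⟩ := hn
      obtain ⟨j, rfl⟩ := he x
      exact ⟨j, by simpa using hx⟩)
    exact ⟨fun n => e (f n), fun i => hf i⟩

end Pool.Agent.Helper35.PP
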