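import Pool.Agent.Helper35.PP.StU

/-!
# Raising the level and the functions `G` (modules F5, F6 of MP_505789_lc)
-/

set_option autoImplicit false

namespace Pool.Agent.Helper35.PP

open Pool.Agent.Helper11.PP

lemma cut_apply' (i : ℕ) (s : Nm) (w : List ℕ) :
    cut i s w = if s w ≠ 0 ∧ (∀ a ∈ w, a < i) then (s w - 1) % 2 ^ i + 1 else 0 := by
  simp [cut]

lemma cut_ne_zero {i : ℕ} {s : Nm} {w : List ℕ} :
    cut i s w ≠ 0 ↔ s w ≠ 0 ∧ ∀ a ∈ w, a < i := by
  rw [cut_apply']
  by_cases h : s w ≠ 0 ∧ ∀ a ∈ w, a < i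
  · simp only [if_pos h]
    exact iff_of_true (Nat.succ_ne_zero _) h
  · simp only [if_neg h]
    exact iff_of_false (by simp) h

lemma sub_nil' (s : Nm) : sub s [] = s := by
  ext w
  rw [sub_apply', List.nil_append]

lemma isName_cut {i i' h : ℕ} {s : Nm} (hs : IsName i' h s) : IsName i h (cut i s) := by
  refine ⟨cut_ne_zero.mpr ⟨hs.1, by simp⟩, fun w a hw => ?_, fun w hw => ?_⟩
  · rw [cut_ne_zero] at hw ⊢
    exact ⟨hs.2.1 w a hw.1, fun b hb => hw.2 b (by simp [hb])⟩
  · have h1 := cut_ne_zero.mp hw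
    refine ⟨h1.2, (hs.2.2 w h1.1).2.1, ?_⟩
    rw [cut_apply', if_pos h1]
    exact Nat.mod_lt _ (by positivity)

lemma cut_self' {i h : ℕ} {s : Nm} (hs : IsName i h s) : cut i s = s := by
  ext w
  rw [cut_apply']
  by_cases hw : s w = 0
  · simp [hw]
  · have := hs.2.2 w hw
    rw [if_pos ⟨hw, this.1⟩, Nat.mod_eq_of_lt (by omega)]
    omega

lemma aset_subset {h : ℕ} {q p : Sys} (hqp : Ref h q p) (hi : q.i = p.i) {s : Nm}
    (hs : IsName p.i h s) : Aset q s ⊆ Aset p s := by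
  rintro _ ⟨x, hx, rfl⟩
  obtain ⟨_, J, hJ⟩ := hqp
  obtain ⟨h1, h2⟩ := hJ s x (hi ▸ hs) hx
  rw [cut_self' hs] at h1 h2
  exact ⟨_, h1, h2⟩

/-- **Module F5.** -/
theorem st_raise : ST_raise := by
  classical
  intro h i i' N' hii
  -- the finite set of pairs
  have hfin : {z : Nm × Nm | IsName i' h z.1 ∧ IsPoint z.1 N' z.2}.Finite := by
    have h1 : (⋃ s ∈ {s : Nm | IsName i' h s}, (fun x => (s, x)) '' {x : Nm | IsPoint s N' x}).Finite :=
      (names_finite i' h).biUnion (fun s _ => (points_finite s N').image _)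
    refine h1.subset ?_
    rintro ⟨s, x⟩ ⟨hs, hx⟩
    exact Set.mem_biUnion hs ⟨x, hx, rfl⟩
  set PP := hfin.toFinset with hPP
  have hmem : ∀ s x, (s, x) ∈ PP ↔ IsName i' h s ∧ IsPoint s N' x := by
    intro s x; rw [hPP, Set.Finite.mem_toFinset]; rfl
  let e : Nm × Nm → ℕ := fun z => if hz : z ∈ PP then (PP.equivFin ⟨z, hz⟩ : ℕ) else 0
  set K := PP.card + 1 with hK
  have heK : ∀ z, e z < K := by
    intro z
    by_cases hz : z ∈ PP
    · have := (PP.equivFin ⟨z, hz⟩).2
      simp only [e, dif_pos hz]; omega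
    · simp only [e, dif_neg hz]; omega
  have heinj : ∀ z ∈ PP, ∀ z' ∈ PP, e z = e z' → z = z' := by
    intro z hz z' hz' he
    simp only [e, dif_pos hz, dif_pos hz'] at he
    have := PP.equivFin.injective (Fin.ext he)
    exact congrArg Subtype.val this
  refine ⟨N' * K, fun p hp hpi hpN => ?_⟩
  subst hpi
  let J : Nm → Nm → ℕ := fun s x => x [] * K + e (s, x)
  have hpt : ∀ s x, IsName i' h s → IsPoint s N' x → IsPoint (cut p.i s) p.N (iota J p.i s x) := by
    intro s x hs hx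
    refine ⟨fun w hw => ?_, fun w hw => ?_, fun w w' hw hw' hlt => ?_⟩
    · rw [iota_apply']
      split_ifs with hcon
      · exact absurd hw (cut_ne_zero.mpr hcon)
      · rfl
    · have h1 := cut_ne_zero.mp hw
      rw [iota_apply', if_pos h1]
      simp only [J, sub_apply', List.append_nil]
      have h2 := hx.2.1 w h1.1
      have h3 := heK (sub s w, sub x w)
      have h4 : (x w + 1) * K ≤ N' * K := Nat.mul_le_mul_right K h2
      nlinarith
    · have h1 := cut_ne_zero.mp hw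
      have h1' := cut_ne_zero.mp hw'
      rw [iota_apply', iota_apply', if_pos h1, if_pos h1']
      simp only [J, sub_apply', List.append_nil]
      have h2 := hx.2.2 w w' h1.1 h1'.1 hlt
      have h3 := heK (sub s w, sub x w)
      have h4 : (x w + 1) * K ≤ x w' * K := Nat.mul_le_mul_right K h2
      nlinarith
  let c' : (Nm × Nm) →₀ ℕ := Finsupp.onFinset PP
    (fun z => if z ∈ PP then p.c (cut p.i z.1, iota J p.i z.1 z.2) else 0)
    (by
      intro z hz
      by_contra hcon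
      exact hz (if_neg hcon))
  have hc' : ∀ s x, IsName i' h s → IsPoint s N' x →
      c' (s, x) = p.c (cut p.i s, iota J p.i s x) := by
    intro s x hs hx
    simp only [c', Finsupp.onFinset_apply]
    rw [if_pos ((hmem s x).mpr ⟨hs, hx⟩)]
  refine ⟨⟨i', N', c'⟩, ?_, ⟨hii, J, fun s x hs hx => ⟨hpt s x hs hx, hc' s x hs hx⟩⟩, rfl, rfl⟩
  intro s hs x x' hx hx' he
  simp only at hs hx hx' he
  rw [hc' s x hs hx, hc' s x' hs hx'] at he
  have h1 := hp (cut p.i s) (isName_cut hs) _ _ (hpt s x hs hx) (hpt s x' hs hx') he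
  have h2 := DFunLike.congr_fun h1 []
  rw [iota_apply', iota_apply', if_pos ⟨hs.1, by simp⟩, if_pos ⟨hs.1, by simp⟩] at h2
  simp only [J, sub_nil'] at h2
  have h3 := heK (s, x)
  have h4 := heK (s, x')
  have h5 : x [] = x' [] := by
    rcases lt_trichotomy (x []) (x' []) with hh | hh | hh
    · have := Nat.mul_le_mul_right K (Nat.succ_le_of_lt hh)
      nlinarith
    · exact hh
    · have := Nat.mul_le_mul_right K (Nat.succ_le_of_lt hh)
      nlinarith
  have h6 : e (s, x) = e (s, x') := by rw [h5] at h2; omega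
  exact congrArg Prod.snd (heinj _ ((hmem s x).mpr ⟨hs, hx⟩) _ ((hmem s x').mpr ⟨hs, hx'⟩) h6)

/-- Points exist in large systems. -/
lemma exists_point (i h : ℕ) : ∃ N0 : ℕ, ∀ s N, IsName i h s → N0 ≤ N → ∃ x, IsPoint s N x := by
  classical
  refine ⟨(words_finite i h).toFinset.card, fun s N hs hN => ?_⟩
  have hsup : s.support ⊆ (words_finite i h).toFinset := by
    intro w hw
    rw [Finsupp.mem_support_iff] at hw
    simpa using And.intro (hs.2.2 w hw).1 (hs.2.2 w hw).2.1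
  have hcard := (Finset.card_le_card hsup).trans hN
  let x : Nm := Finsupp.onFinset s.support
    (fun w => if s w ≠ 0 then (s.support.filter (fun v => v < w)).card else 0) (by
      intro w hw
      rw [Finsupp.mem_support_iff]
      by_contra hcon
      exact hw (if_neg (not_not.mpr hcon)))
  have hx : ∀ w, s w ≠ 0 → x w = (s.support.filter (fun v => v < w)).card := fun w hw => by
    simp only [x, Finsupp.onFinset_apply]
    exact if_pos hw
  refine ⟨x, fun w hw => ?_, fun w hw => ?_, fun w w' hw hw' hlt => ?_⟩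
  · simp only [x, Finsupp.onFinset_apply]
    exact if_neg (not_not.mpr hw)
  · rw [hx w hw]
    refine lt_of_lt_of_le (Finset.card_lt_card ?_) hcard
    rw [Finset.ssubset_iff_of_subset (Finset.filter_subset _ _)]
    exact ⟨w, Finsupp.mem_support_iff.mpr hw, by simp⟩
  · rw [hx w hw, hx w' hw']
    refine Finset.card_lt_card ?_
    rw [Finset.ssubset_iff_of_subset]
    · exact ⟨w, Finset.mem_filter.mpr ⟨Finsupp.mem_support_iff.mpr hw, hlt⟩, by simp⟩
    · intro v hv
      rw [Finset.mem_filter] at hv ⊢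
      exact ⟨hv.1, hv.2.trans hlt⟩

lemma kgood_mono {h : ℕ} {q p : Sys} (hqp : Ref h q p) (hi : q.i = p.i) {s : Nm}
    (hs : IsName p.i h s) {ψ : Finset ℕ → Set ℕ} (hK : KGood h p ψ s) : KGood h q ψ s := by
  intro t ht hts B hB
  rw [hi] at ht
  have h1 := aset_subset hqp hi ht
  have h2 := aset_subset hqp hi hs
  rcases hK t ht hts B (hB.trans h1) with h3 | h3
  · exact Or.inl (h3.mono_right h2)
  · exact Or.inr (fun h4 => h3 (h4.trans h2))

/-- Solving (K) for a finite set of names. -/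
lemma solveK (htr : ST_trans) (hre : ST_reindex) (hK : ST_K) (h i : ℕ) (T : Finset Nm)
    (hT : ∀ s ∈ T, IsName i h s) : ∀ N' : ℕ, ∃ N, ∀ p : Sys, Valid h p → p.i = i → N ≤ p.N →
      ∀ ψ : Finset ℕ → Set ℕ, ∃ q : Sys, Valid h q ∧ Ref h q p ∧ q.i = i ∧ q.N = N' ∧
        ∀ s ∈ T, KGood h q ψ s := by
  classical
  induction T using Finset.induction_on with
  | empty =>
    intro N'
    refine ⟨N', fun p hp hpi hpN ψ => ?_⟩
    obtain ⟨q, h1, h2, h3, h4, -⟩ := hre h p hp N' (fun _ l => l)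
      (fun s l hl => hl.trans_le hpN) (fun s t l l' hl hl' => hl)
    exact ⟨q, h1, h2, h3.trans hpi, h4, by simp⟩
  | insert s T hsT ih =>
    intro N'
    obtain ⟨N1, hN1⟩ := ih (fun s hs => hT s (Finset.mem_insert_of_mem hs)) N'
    obtain ⟨N2, hN2⟩ := hK h i N1 s (hT s (Finset.mem_insert_self _ _))
    refine ⟨N2, fun p hp hpi hpN ψ => ?_⟩
    obtain ⟨q1, a1, a2, a3, a4, a5⟩ := hN2 p hp hpi hpN ψ
    obtain ⟨q, b1, b2, b3, b4, b5⟩ := hN1 q1 a1 a3 a4.ge ψ
    refine ⟨q, b1, htr h q q1 p b2 a2, b3, b4, fun t ht => ?_⟩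
    rcases Finset.mem_insert.mp ht with rfl | ht
    · exact kgood_mono b2 (b3.trans a3.symm) (a3.symm ▸ hT t (Finset.mem_insert_self _ _)) a5
    · exact b5 t ht

lemma solve_all (htr : ST_trans) (hre : ST_reindex) (hU : ST_U) (hK : ST_K) (h i N' : ℕ) :
    ∃ N, ∀ p : Sys, Valid h p → p.i = i → N ≤ p.N → ∀ (C : Set ℕ) (ψ : Finset ℕ → Set ℕ),
      ∃ q : Sys, Valid h q ∧ Ref h q p ∧ q.i = i ∧ q.N = N' ∧ Good h q C ψ := by
  classical
  obtain ⟨N1, hN1⟩ := hU h i N'
  obtain ⟨N2, hN2⟩ := solveK htr hre hK h i (names_finite i h).toFinset (by simp) N1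
  refine ⟨N2, fun p hp hpi hpN C ψ => ?_⟩
  obtain ⟨q1, a1, a2, a3, a4, a5⟩ := hN2 p hp hpi hpN ψ
  obtain ⟨q, b1, b2, b3, b4, b5⟩ := hN1 q1 a1 a3 a4.ge C
  refine ⟨q, b1, htr h q q1 p b2 a2, b3, b4, ?_, ?_⟩
  · intro s hs
    exact b5 s (b3 ▸ hs)
  · intro s hs
    rw [b3] at hs
    exact kgood_mono b2 (b3.trans a3.symm) (a3.symm ▸ hs) (a5 s (by simpa using hs))

/-- **Module F6.** -/
theorem st_G (htr : ST_trans) (hre : ST_reindex) (hU : ST_U) (hK : ST_K) : ST_G := by
  classical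
  choose S hS using solve_all htr hre hU hK
  choose R hR using fun h i N' => st_raise h i (2 * i) N' (by omega)
  choose P hP using fun h i => exists_point i h
  let G : ℕ → ℕ → ℕ → ℕ := fun m => Nat.rec (fun _ _ => 0)
    (fun _ g h i => max (max (g h i) (P h i)) (max (S h i (g h i)) (R h i (g h (2 * i))))) m
  have hG : ∀ m h i, G (m + 1) h i =
      max (max (G m h i) (P h i)) (max (S h i (G m h i)) (R h i (G m h (2 * i)))) :=
    fun m h i => rfl
  refine ⟨G, ⟨fun m h i => ?_, fun h i s N hs hN => ?_, fun m h p hp hpN C ψ => ?_,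
    fun m h p hp hpN => ?_⟩⟩
  · rw [hG]
    exact (le_max_left _ _).trans (le_max_left _ _)
  · refine hP h i s N hs (le_trans ?_ hN)
    rw [show G 1 h i = _ from hG 0 h i]
    exact (le_max_right _ _).trans (le_max_left _ _)
  · obtain ⟨q, h1, h2, h3, h4, h5⟩ := hS h p.i (G m h p.i) p hp rfl
      (le_trans (by rw [hG]; exact (le_max_left _ _).trans (le_max_right _ _)) hpN) C ψ
    exact ⟨q, h1, h2, h3, h4.ge, h5⟩
  · obtain ⟨q, h1, h2, h3, h4⟩ := hR h p.i (G m h (2 * p.i)) p hp rfl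
      (le_trans (by rw [hG]; exact (le_max_right _ _).trans (le_max_right _ _)) hpN)
    exact ⟨q, h1, h2, h3, h4.ge⟩

end Pool.Agent.Helper35.PP
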