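import Mathlib

/-!
# Finite hypergraph Ramsey theorem, finitely many colourings at once (module M4a)
-/

namespace Pool.Agent.Helper35.PP

/-- Inner induction: end-homogeneous sets. -/
lemma end_homog (k : ℕ)
    (ih : ∀ m : ℕ, ∃ N : ℕ, ∀ S : Finset ℕ, N ≤ S.card → ∀ f : Finset ℕ → Prop,
      ∃ H, H ⊆ S ∧ H.card = m ∧ ∀ A B : Finset ℕ, A ⊆ H → B ⊆ H → A.card = k → B.card = k →
        (f A ↔ f B)) (t : ℕ) :
    ∃ N : ℕ, ∀ S : Finset ℕ, N ≤ S.card → ∀ f : Finset ℕ → Prop,
      ∃ T, T ⊆ S ∧ T.card = t ∧ ∃ c : ℕ → Prop, ∀ a ∈ T, ∀ A : Finset ℕ, A ⊆ T → A.card = k →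
        (∀ x ∈ A, a < x) → (f (insert a A) ↔ c a) := by
  classical
  induction t with
  | zero => exact ⟨0, fun S _ f => ⟨∅, by simp, by simp, fun _ => True, by simp⟩⟩
  | succ t iht =>
    obtain ⟨N, hN⟩ := iht
    obtain ⟨M, hM⟩ := ih N
    refine ⟨M + 1, fun S hS f => ?_⟩
    have hne : S.Nonempty := Finset.card_pos.mp (by omega)
    set a := S.min' hne with ha
    have haS : a ∈ S := S.min'_mem hne
    have hc : M ≤ (S.erase a).card := by
      rw [Finset.card_erase_of_mem haS]; omega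
    obtain ⟨H, hHS, hHc, hH⟩ := hM (S.erase a) hc (fun A => f (insert a A))
    obtain ⟨T, hTH, hTc, c, hc⟩ := hN H hHc.ge f
    have haT : ∀ x ∈ T, a < x := by
      intro x hx
      have h1 := Finset.mem_erase.mp (hHS (hTH hx))
      exact lt_of_le_of_ne (S.min'_le x h1.2) (Ne.symm h1.1)
    have haT' : a ∉ T := fun h => lt_irrefl _ (haT a h)
    refine ⟨insert a T, ?_, by rw [Finset.card_insert_of_notMem haT', hTc], ?_⟩
    · exact Finset.insert_subset haS ((hTH.trans hHS).trans (Finset.erase_subset _ _))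
    · refine ⟨fun b => if b = a then (∃ A : Finset ℕ, A ⊆ T ∧ A.card = k ∧ f (insert a A))
        else c b, fun b hb A hA hAk hbA => ?_⟩
      have hAT : A ⊆ T := by
        intro x hx
        rcases Finset.mem_insert.mp (hA hx) with rfl | h
        · have h1 := hbA _ hx
          rcases Finset.mem_insert.mp hb with rfl | h2
          · exact absurd h1 (lt_irrefl _)
          · exact absurd (haT b h2) (not_lt.mpr h1.le)
        · exact h
      rcases Finset.mem_insert.mp hb with rfl | hb'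
      · simp only [if_true]
        constructor
        · intro h; exact ⟨A, hAT, hAk, h⟩
        · rintro ⟨B, hBT, hBk, h⟩
          exact (hH A B (hAT.trans hTH) (hBT.trans hTH) hAk hBk).mpr h
      · have : b ≠ a := fun h => haT' (h ▸ hb')
        simp only [if_neg this]
        exact hc b hb' A hAT hAk hbA

/-- **Finite hypergraph Ramsey theorem** (two colours). -/
theorem finite_ramsey (k m : ℕ) : ∃ N : ℕ, ∀ S : Finset ℕ, N ≤ S.card → ∀ f : Finset ℕ → Prop,
    ∃ H, H ⊆ S ∧ H.card = m ∧ ∀ A B : Finset ℕ, A ⊆ H → B ⊆ H → A.card = k → B.card = k →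
      (f A ↔ f B) := by
  classical
  induction k generalizing m with
  | zero =>
    refine ⟨m, fun S hS f => ?_⟩
    obtain ⟨H, hH, hHc⟩ := Finset.exists_subset_card_eq hS
    refine ⟨H, hH, hHc, fun A B _ _ hA hB => ?_⟩
    rw [Finset.card_eq_zero.mp hA, Finset.card_eq_zero.mp hB]
  | succ k ih =>
    obtain ⟨N, hN⟩ := end_homog k ih (2 * m)
    refine ⟨N, fun S hS f => ?_⟩
    obtain ⟨T, hTS, hTc, c, hc⟩ := hN S hS f
    have key : ∀ H : Finset ℕ, H ⊆ T → (∀ a ∈ H, ∀ b ∈ H, (c a ↔ c b)) →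
        ∀ A B : Finset ℕ, A ⊆ H → B ⊆ H → A.card = k + 1 → B.card = k + 1 → (f A ↔ f B) := by
      intro H hH hcc A B hA hB hAk hBk
      have aux : ∀ A : Finset ℕ, A ⊆ H → A.card = k + 1 → ∃ a ∈ H, (f A ↔ c a) := by
        intro A hA hAk
        have hne : A.Nonempty := Finset.card_pos.mp (by omega)
        refine ⟨A.min' hne, hA (A.min'_mem hne), ?_⟩
        have h1 := hc (A.min' hne) (hH (hA (A.min'_mem hne))) (A.erase (A.min' hne))
          ((Finset.erase_subset _ _).trans (hA.trans hH))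
          (by rw [Finset.card_erase_of_mem (A.min'_mem hne)]; omega)
          (fun x hx => lt_of_le_of_ne (A.min'_le x (Finset.mem_erase.mp hx).2)
            (Ne.symm (Finset.mem_erase.mp hx).1))
        rwa [Finset.insert_erase (A.min'_mem hne)] at h1
      obtain ⟨a, ha, ha'⟩ := aux A hA hAk
      obtain ⟨b, hb, hb'⟩ := aux B hB hBk
      rw [ha', hb']
      exact hcc a ha b hb
    have hsum := Finset.card_filter_add_card_filter_not (s := T) (fun a => c a)
    rcases le_or_gt m (T.filter (fun a => c a)).card with h1 | h1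
    · obtain ⟨H, hH, hHc⟩ := Finset.exists_subset_card_eq h1
      have hHT : H ⊆ T := hH.trans (Finset.filter_subset _ _)
      refine ⟨H, hHT.trans hTS, hHc, key H hHT (fun a ha b hb => ?_)⟩
      exact iff_of_true (Finset.mem_filter.mp (hH ha)).2 (Finset.mem_filter.mp (hH hb)).2
    · have h2 : m ≤ (T.filter (fun a => ¬ c a)).card := by omega
      obtain ⟨H, hH, hHc⟩ := Finset.exists_subset_card_eq h2
      have hHT : H ⊆ T := hH.trans (Finset.filter_subset _ _)
      refine ⟨H, hHT.trans hTS, hHc, key H hHT (fun a ha b hb => ?_)⟩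
      exact iff_of_false (Finset.mem_filter.mp (hH ha)).2 (Finset.mem_filter.mp (hH hb)).2

/-- **Finite Ramsey for finitely many colourings at once**: the `j`-th colouring is homogeneous on
`L[j]`-subsets. -/
theorem finite_ramsey_multi (L : List ℕ) (m : ℕ) : ∃ N : ℕ, ∀ S : Finset ℕ, N ≤ S.card →
    ∀ f : ℕ → Finset ℕ → Prop, ∃ H, H ⊆ S ∧ H.card = m ∧
      ∀ (j : ℕ) (hj : j < L.length), ∀ A B : Finset ℕ, A ⊆ H → B ⊆ H →
        A.card = L[j] → B.card = L[j] → (f j A ↔ f j B) := by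
  induction L generalizing m with
  | nil =>
    refine ⟨m, fun S hS f => ?_⟩
    obtain ⟨H, hH, hHc⟩ := Finset.exists_subset_card_eq hS
    exact ⟨H, hH, hHc, fun j hj => absurd hj (by simp)⟩
  | cons k L ih =>
    obtain ⟨N, hN⟩ := ih m
    obtain ⟨M, hM⟩ := finite_ramsey k N
    refine ⟨M, fun S hS f => ?_⟩
    obtain ⟨H1, h1S, h1c, h1⟩ := hM S hS (f 0)
    obtain ⟨H, hH, hHc, hH2⟩ := hN H1 h1c.ge (fun j => f (j + 1))
    refine ⟨H, hH.trans h1S, hHc, fun j hj A B hA hB hAk hBk => ?_⟩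
    rcases j with _ | j
    · exact h1 A B (hA.trans hH) (hB.trans hH) hAk hBk
    · exact hH2 j (by simpa using hj) A B hA hB hAk hBk

/-- Version indexed by a finite type. -/
theorem finite_ramsey_fintype {ι : Type*} [Finite ι] (k : ι → ℕ) (m : ℕ) :
    ∃ N : ℕ, ∀ S : Finset ℕ, N ≤ S.card →
    ∀ f : ι → Finset ℕ → Prop, ∃ H, H ⊆ S ∧ H.card = m ∧
      ∀ i : ι, ∀ A B : Finset ℕ, A ⊆ H → B ⊆ H →
        A.card = k i → B.card = k i → (f i A ↔ f i B) := by
  classical
  obtain ⟨n, ⟨e⟩⟩ := Finite.exists_equiv_fin ι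
  obtain ⟨N, hN⟩ := finite_ramsey_multi (List.ofFn (fun j : Fin n => k (e.symm j))) m
  refine ⟨N, fun S hS f => ?_⟩
  obtain ⟨H, hHS, hHc, hH⟩ := hN S hS (fun j A => if hj : j < n then f (e.symm ⟨j, hj⟩) A else True)
  refine ⟨H, hHS, hHc, fun i A B hA hB hAk hBk => ?_⟩
  have h1 := hH (e i) (by simp) A B hA hB (by simpa using hAk) (by simpa using hBk)
  simpa using h1

end Pool.Agent.Helper35.PP
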