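import Mathlib

/-!
# MA(σ-centered) and cardinal arithmetic (module M1 of MP_505789_lc)

`MAsc` is the hypothesis of `S14689`, word for word. We prove `2^κ ≤ 𝔠` for `κ < 𝔠`,
`𝔠^κ ≤ 𝔠` for `κ < 𝔠`, and that `𝔠` is regular.
-/

namespace Pool.Agent.Helper35.PP

open Cardinal Set

/-- The hypothesis of `S14689` (Martin's axiom for `σ`-centered posets). -/
def MAsc : Prop :=
  ∀ (P : Type) [Preorder P],
        (∃ C : ℕ → Set P, (⋃ n, C n) = Set.univ ∧
            ∀ n, ∀ F : Finset P, (↑F : Set P) ⊆ C n → ∃ r : P, ∀ p ∈ F, r ≤ p) →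
        ∀ 𝒟 : Set (Set P), Cardinal.mk 𝒟 < Cardinal.continuum →
          (∀ D ∈ 𝒟, ∀ p : P, ∃ q ∈ D, q ≤ p) →
          ∃ G : Set P, G.Nonempty ∧ (∀ p ∈ G, ∀ q : P, p ≤ q → q ∈ G) ∧
            (∀ p ∈ G, ∀ q ∈ G, ∃ r ∈ G, r ≤ p ∧ r ≤ q) ∧
            ∀ D ∈ 𝒟, (D ∩ G).Nonempty

/-- Code of the first `n` bits of `x` (together with `n`). -/
noncomputable def cod (x : ℕ → Bool) (n : ℕ) : ℕ :=
  Encodable.encode (List.ofFn (fun i : Fin n => x i))

/-- The branch of `x` : an infinite set of naturals; different branches are almost disjoint. -/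
def branch (x : ℕ → Bool) : Set ℕ := Set.range (cod x)

lemma cod_inj {x y : ℕ → Bool} {m n : ℕ} (h : cod x m = cod y n) :
    m = n ∧ ∀ i < n, x i = y i := by
  have h1 := Encodable.encode_injective h
  have h2 : m = n := by
    have := congrArg List.length h1
    simpa using this
  subst h2
  refine ⟨rfl, fun i hi => ?_⟩
  have := congrArg (fun l => l[i]?) h1
  simpa [hi] using this

lemma cod_injective (x : ℕ → Bool) : Function.Injective (cod x) := fun _ _ h => (cod_inj h).1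

lemma branch_inter_finite {x y : ℕ → Bool} (h : x ≠ y) : (branch x ∩ branch y).Finite := by
  obtain ⟨i, hi⟩ := Function.ne_iff.mp h
  refine Set.Finite.subset (Set.Finite.image (cod x) (Set.finite_le_nat i)) ?_
  rintro _ ⟨⟨m, rfl⟩, ⟨n, hn⟩⟩
  refine ⟨m, ?_, rfl⟩
  by_contra hm
  simp only [Set.mem_ofPred_eq, not_le] at hm
  have := cod_inj hn.symm
  exact hi (this.2 i (this.1 ▸ hm))

/-- The almost disjoint coding poset: `(s, F)`, `s` a finite set of naturals, `F` a finite set of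
elements of `B`. -/
def ADP (B : Set (ℕ → Bool)) : Type := Finset ℕ × Finset B

instance (B : Set (ℕ → Bool)) : Preorder (ADP B) where
  le p q := q.1 ⊆ p.1 ∧ q.2 ⊆ p.2 ∧ ∀ x ∈ q.2, ∀ k ∈ p.1, k ∉ q.1 → k ∉ branch x.1
  le_refl p := ⟨Finset.Subset.refl _, Finset.Subset.refl _, fun _ _ _ h1 h2 => absurd h1 h2⟩
  le_trans p q r h1 h2 := by
    refine ⟨h2.1.trans h1.1, h2.2.1.trans h1.2.1, fun x hx k hk hkr => ?_⟩
    by_cases hq : k ∈ q.1
    · exact h2.2.2 x hx k hq hkr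
    · exact h1.2.2 x (h2.2.1 hx) k hk hq

lemma adp_le {B : Set (ℕ → Bool)} {p q : ADP B} : p ≤ q ↔
    q.1 ⊆ p.1 ∧ q.2 ⊆ p.2 ∧ ∀ x ∈ q.2, ∀ k ∈ p.1, k ∉ q.1 → k ∉ branch x.1 := Iff.rfl

lemma adp_centered (B : Set (ℕ → Bool)) :
    ∃ C : ℕ → Set (ADP B), (⋃ n, C n) = Set.univ ∧
      ∀ n, ∀ F : Finset (ADP B), (↑F : Set (ADP B)) ⊆ C n → ∃ r : ADP B, ∀ p ∈ F, r ≤ p := by
  classical
  refine ⟨fun n => {p | Encodable.encode p.1 = n}, ?_, ?_⟩
  · ext p; simp
  · intro n F hF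
    rcases F.eq_empty_or_nonempty with rfl | ⟨p0, hp0⟩
    · exact ⟨(∅, ∅), by simp⟩
    · refine ⟨(p0.1, F.biUnion (fun p => p.2)), fun p hp => ?_⟩
      have h1 : p.1 = p0.1 := by
        have a := hF hp
        have b := hF hp0
        simp only [Set.mem_ofPred_eq] at a b
        exact Encodable.encode_injective (a.trans b.symm)
      refine ⟨h1.le, Finset.subset_biUnion_of_mem (fun p : ADP B => p.2) hp, ?_⟩
      intro x _ k hk hk'
      exact absurd hk (h1 ▸ hk')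

/-- Solovay's almost disjoint coding. -/
theorem coding (h : MAsc) (S B : Set (ℕ → Bool)) (hS : #S < 𝔠) (hB : B ⊆ S) :
    ∃ X : Set ℕ, ∀ x ∈ S, x ∈ B ↔ (X ∩ branch x).Finite := by
  classical
  let D1 : B → Set (ADP B) := fun x => {p | x ∈ p.2}
  let D2 : (↑(S \ B) : Set (ℕ → Bool)) × ℕ → Set (ADP B) :=
    fun y => {p | y.2 ≤ (p.1.filter (fun k => k ∈ branch y.1.1)).card}
  let DD : Set (Set (ADP B)) := Set.range D1 ∪ Set.range D2
  have hcard : #DD < 𝔠 := by
    have hB' : #B < 𝔠 := (Cardinal.mk_le_mk_of_subset hB).trans_lt hS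
    have hSB : #(↑(S \ B) : Set (ℕ → Bool)) < 𝔠 :=
      (Cardinal.mk_le_mk_of_subset Set.sdiff_subset).trans_lt hS
    refine (Cardinal.mk_union_le _ _).trans_lt ?_
    refine Cardinal.add_lt_of_lt Cardinal.aleph0_le_continuum ?_ ?_
    · exact Cardinal.mk_range_le.trans_lt hB'
    · refine Cardinal.mk_range_le.trans_lt ?_
      rw [Cardinal.mk_prod]
      simp only [Cardinal.lift_id, Cardinal.mk_nat]
      exact Cardinal.mul_lt_of_lt Cardinal.aleph0_le_continuum (by simpa using hSB)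
        Cardinal.aleph0_lt_continuum
  have hdense : ∀ D ∈ DD, ∀ p : ADP B, ∃ q ∈ D, q ≤ p := by
    rintro D (⟨x, rfl⟩ | ⟨y, rfl⟩) p
    · refine ⟨(p.1, insert x p.2), Finset.mem_insert_self x p.2, ?_⟩
      exact ⟨Finset.Subset.refl _, Finset.subset_insert _ _, fun _ _ _ h1 h2 => absurd h1 h2⟩
    · obtain ⟨⟨y, hyS, hyB⟩, n⟩ := y
      have hinf : (branch y \ ⋃ x ∈ p.2, branch x.1).Infinite := by
        have h1 : (branch y ∩ ⋃ x ∈ p.2, branch x.1).Finite := by
          rw [Set.inter_iUnion₂]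
          refine Set.Finite.biUnion (Finset.finite_toSet p.2) (fun x _ => ?_)
          exact branch_inter_finite (fun hxy => hyB (hxy ▸ x.2))
        have h2 : (branch y).Infinite := Set.infinite_range_of_injective (cod_injective y)
        have := h2.sdiff h1
        simpa using this
      obtain ⟨t, ht, htn⟩ := hinf.exists_subset_card_eq n
      refine ⟨(p.1 ∪ t, p.2), ?_, ?_⟩
      · change n ≤ ((p.1 ∪ t).filter (fun k => k ∈ branch y)).card
        rw [← htn]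
        refine Finset.card_le_card (fun k hk => ?_)
        rw [Finset.mem_filter]
        exact ⟨Finset.mem_union_right _ hk, (ht hk).1⟩
      · refine ⟨Finset.subset_union_left, Finset.Subset.refl _, fun x hx k hk hkp hkx => ?_⟩
        rcases Finset.mem_union.mp hk with hk | hk
        · exact hkp hk
        · exact (ht hk).2 (Set.mem_biUnion hx hkx)
  obtain ⟨G, hGne, hGup, hGdir, hGD⟩ := h (ADP B) (adp_centered B) DD hcard hdense
  refine ⟨{k | ∃ p ∈ G, k ∈ p.1}, fun x hx => ⟨fun hxB => ?_, fun hfin => ?_⟩⟩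
  · obtain ⟨p, hp1, hp2⟩ := hGD (D1 ⟨x, hxB⟩) (Or.inl ⟨_, rfl⟩)
    refine Set.Finite.subset (Finset.finite_toSet p.1) ?_
    rintro k ⟨⟨q, hq, hkq⟩, hkx⟩
    by_contra hkp
    obtain ⟨r, _, hrp, hrq⟩ := hGdir p hp2 q hq
    exact hrp.2.2 ⟨x, hxB⟩ hp1 k (hrq.1 hkq) hkp hkx
  · by_contra hxB
    obtain ⟨p, hp1, hp2⟩ := hGD (D2 (⟨x, hx, hxB⟩, hfin.toFinset.card + 1)) (Or.inr ⟨_, rfl⟩)
    have hp1' : hfin.toFinset.card + 1 ≤ (p.1.filter (fun k => k ∈ branch x)).card := hp1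
    have : (p.1.filter (fun k => k ∈ branch x)).card ≤ hfin.toFinset.card := by
      refine Finset.card_le_card (fun k hk => ?_)
      rw [Finset.mem_filter] at hk
      rw [Set.Finite.mem_toFinset]
      exact ⟨⟨p, hp2, hk.1⟩, hk.2⟩
    omega

/-- Under MA(σ-centered), `2^κ ≤ 𝔠` for `κ < 𝔠`. -/
theorem two_pow_le (h : MAsc) {κ : Cardinal.{0}} (hκ : κ < 𝔠) : 2 ^ κ ≤ 𝔠 := by
  classical
  have hc : #(ℕ → Bool) = 𝔠 := by simp
  obtain ⟨S, hS⟩ := Cardinal.le_mk_iff_exists_set.mp (hκ.le.trans hc.ge)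
  have hS' : #S < 𝔠 := hS ▸ hκ
  choose X hX using fun B : Set S =>
    coding h S (Subtype.val '' B) hS' (by rintro _ ⟨x, _, rfl⟩; exact x.2)
  have hinj : Function.Injective X := by
    intro B B' hBB
    ext x
    have h1 := hX B x.1 x.2
    have h2 := hX B' x.1 x.2
    rw [hBB, ← h2] at h1
    simpa using h1
  have := Cardinal.mk_le_of_injective hinj
  rw [Cardinal.mk_set, Cardinal.mk_set, hS, Cardinal.mk_nat] at this
  exact this.trans (le_of_eq Cardinal.two_power_aleph0)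

/-- Under MA(σ-centered), `𝔠^κ ≤ 𝔠` for `κ < 𝔠`. -/
theorem cont_pow_le (h : MAsc) {κ : Cardinal.{0}} (hκ : κ < 𝔠) : 𝔠 ^ κ ≤ 𝔠 := by
  rw [← Cardinal.two_power_aleph0, ← Cardinal.power_mul]
  rw [Cardinal.two_power_aleph0]
  exact two_pow_le h (Cardinal.mul_lt_of_lt Cardinal.aleph0_le_continuum
    Cardinal.aleph0_lt_continuum hκ)

/-- Under MA(σ-centered), the continuum is regular. -/
theorem cont_regular (h : MAsc) : Cardinal.IsRegular (𝔠 : Cardinal.{0}) := by
  refine ⟨Cardinal.aleph0_le_continuum, ?_⟩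
  by_contra hlt
  push Not at hlt
  exact absurd (cont_pow_le h hlt) (not_le.mpr (Cardinal.lt_power_cof_ord
    Cardinal.aleph0_le_continuum))

end Pool.Agent.Helper35.PP
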