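import Pool.Agent.Helper35.PP.MAtypes

/-!
# A saturated Ramsey ultrafilter (module M2 of MP_505789_lc)
-/

namespace Pool.Agent.Helper35.PP

open Cardinal Set

/-- Strong finite intersection property: finite intersections are infinite. -/
def SF (B : Set (Set ℕ)) : Prop :=
  ∀ F : Finset (Set ℕ), (↑F : Set (Set ℕ)) ⊆ B → (⋂ A ∈ F, A).Infinite

/-- `A` is positive for (the filter generated by) `B` and the cofinite sets. -/
def Pos (B : Set (Set ℕ)) (A : Set ℕ) : Prop :=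
  ∀ F : Finset (Set ℕ), (↑F : Set (Set ℕ)) ⊆ B → ((⋂ A ∈ F, A) ∩ A).Infinite

lemma SF.mono {B B' : Set (Set ℕ)} (h : SF B') (hB : B ⊆ B') : SF B :=
  fun F hF => h F (hF.trans hB)

lemma not_pos {B : Set (Set ℕ)} {A : Set ℕ} (h : ¬ Pos B A) :
    ∃ F : Finset (Set ℕ), (↑F : Set (Set ℕ)) ⊆ B ∧ ((⋂ A ∈ F, A) ∩ A).Finite := by
  unfold Pos at h
  push Not at h
  exact h

lemma pos_of_not_pos {B : Set (Set ℕ)} (hB : SF B) {A : Set ℕ} (h : ¬ Pos B Aᶜ) : Pos B A := by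
  classical
  obtain ⟨F, hF, hfin⟩ := not_pos h
  intro F' hF'
  have h1 := hB (F ∪ F') (by
    rw [Finset.coe_union]; exact Set.union_subset hF hF')
  have h2 := h1.sdiff hfin
  refine h2.mono ?_
  rintro n ⟨hn1, hn2⟩
  simp only [Set.mem_iInter, Finset.mem_union] at hn1
  refine ⟨by simp only [Set.mem_iInter]; exact fun A hA => hn1 A (Or.inr hA), ?_⟩
  by_contra hA
  exact hn2 ⟨by simp only [Set.mem_iInter]; exact fun A hA => hn1 A (Or.inl hA), hA⟩

/-- Adding a family all of whose finite subfamilies are jointly positive. -/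
lemma SF_add {B : Set (Set ℕ)} {I : Type} (E : I → Set ℕ)
    (h : ∀ J : Finset I, Pos B (⋂ j ∈ J, E j)) : SF (B ∪ Set.range E) := by
  classical
  intro F hF
  have h1 : ∃ J : Finset I, ∀ A ∈ F, A ∉ B → ∃ j ∈ J, E j = A := by
    have : ∀ A : {A // A ∈ F ∧ A ∉ B}, ∃ j, E j = A.1 := by
      rintro ⟨A, hA, hAB⟩
      rcases hF hA with hh | ⟨j, hj⟩
      · exact absurd hh hAB
      · exact ⟨j, hj⟩
    choose g hg using this
    have hfin : Finite {A // A ∈ F ∧ A ∉ B} :=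
      Finite.of_injective (fun A => (⟨A.1, A.2.1⟩ : F)) (fun A A' hh => by
        simpa [Subtype.ext_iff] using hh)
    refine ⟨(Set.finite_range g).toFinset, ?_⟩
    intro A hA hAB
    exact ⟨g ⟨A, hA, hAB⟩, by simp, hg _⟩
  obtain ⟨J, hJ⟩ := h1
  have h2 := h J (F.filter (fun A => A ∈ B)) (by
    intro A hA
    exact (Finset.mem_filter.mp (Finset.mem_coe.mp hA)).2)
  refine h2.mono ?_
  rintro n ⟨hn1, hn2⟩
  simp only [Set.mem_iInter] at hn1 hn2 ⊢
  intro A hA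
  by_cases hAB : A ∈ B
  · exact hn1 A (Finset.mem_filter.mpr ⟨hA, hAB⟩)
  · obtain ⟨j, hj, rfl⟩ := hJ A hA hAB
    exact hn2 j hj

lemma SF_insert {B : Set (Set ℕ)} {A : Set ℕ} (h : Pos B A) : SF (B ∪ {A}) := by
  have := SF_add (B := B) (I := Unit) (fun _ => A) (fun J F hF => (h F hF).mono (by
    rintro n ⟨hn1, hn2⟩
    exact ⟨hn1, by simp only [Set.mem_iInter]; exact fun _ _ => hn2⟩))
  refine this.mono ?_
  rintro X (hX | hX)
  · exact Or.inl hX
  · exact Or.inr ⟨(), by simpa using hX.symm⟩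

/-- `MA` for countable posets. -/
theorem cohen (h : MAsc) (P : Type) [Preorder P] [Countable P] (DD : Set (Set P))
    (hD : #DD < 𝔠) (hdense : ∀ D ∈ DD, ∀ p : P, ∃ q ∈ D, q ≤ p) (p0 : P) :
    ∃ G : Set P, G.Nonempty ∧ (∀ p ∈ G, ∀ q : P, p ≤ q → q ∈ G) ∧
            (∀ p ∈ G, ∀ q ∈ G, ∃ r ∈ G, r ≤ p ∧ r ≤ q) ∧
            ∀ D ∈ DD, (D ∩ G).Nonempty := by
  classical
  obtain ⟨e, he⟩ := exists_injective_nat P
  refine h P ⟨fun n => {p | e p = n}, ?_, ?_⟩ DD hD hdense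
  · ext p; simp
  · intro n F hF
    rcases F.eq_empty_or_nonempty with rfl | ⟨q0, hq0⟩
    · exact ⟨p0, by simp⟩
    · refine ⟨q0, fun p hp => ?_⟩
      have a : e p = n := hF hp
      have b : e q0 = n := hF hq0
      rw [he (a.trans b.symm)]

/-- The set of `n` such that finitely many conditions can be met simultaneously. -/
def satJ {I : Type} (P : I → ℕ → Set ℕ) (J : Finset I) : Set ℕ := {n | ∃ a, ∀ j ∈ J, a ∈ P j n}

lemma mk_finset_lt {I : Type} (hI : #I < 𝔠) : #(Finset I) < 𝔠 := by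
  rcases finite_or_infinite I with hf | hi
  · exact (Cardinal.mk_lt_aleph0_iff.mpr inferInstance).trans Cardinal.aleph0_lt_continuum
  · rw [Cardinal.mk_finset_of_infinite]; exact hI

lemma mk_finsets_lt {B : Set (Set ℕ)} (hB : #B < 𝔠) :
    #{F : Finset (Set ℕ) // (↑F : Set (Set ℕ)) ⊆ B} < 𝔠 := by
  classical
  refine (Cardinal.mk_le_of_injective
    (f := fun F : {F : Finset (Set ℕ) // (↑F : Set (Set ℕ)) ⊆ B} =>
      F.1.subtype (fun A => A ∈ B)) ?_).trans_lt (mk_finset_lt hB)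
  rintro ⟨F, hF⟩ ⟨F', hF'⟩ hh
  rw [Subtype.mk.injEq]
  ext A
  by_cases hA : A ∈ B
  · have := Finset.ext_iff.mp hh ⟨A, hA⟩
    simpa using this
  · exact ⟨fun h => absurd (hF h) hA, fun h => absurd (hF' h) hA⟩

lemma mk_mul3_lt {α β : Type} (hα : #α < 𝔠) (hβ : #β < 𝔠) : #(α × β × ℕ) < 𝔠 := by
  rw [Cardinal.mk_prod, Cardinal.mk_prod]
  simp only [Cardinal.lift_id, Cardinal.mk_nat]
  exact Cardinal.mul_lt_of_lt Cardinal.aleph0_le_continuum hα
    (Cardinal.mul_lt_of_lt Cardinal.aleph0_le_continuum hβ Cardinal.aleph0_lt_continuum)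

/-- Finite sequences, ordered by extension. -/
def FSeq : Type := List ℕ

instance : Preorder FSeq where
  le l l' := List.IsPrefix (α := ℕ) l' l
  le_refl l := List.prefix_refl (α := ℕ) l
  le_trans _ _ _ h1 h2 := List.IsPrefix.trans (α := ℕ) h2 h1

instance : Countable FSeq := inferInstanceAs (Countable (List ℕ))

/-- The `n`-th entry. -/
def FSeq.get? (l : FSeq) (n : ℕ) : Option ℕ := (show List ℕ from l)[n]?

lemma FSeq.get?_le {l l' : FSeq} (h : l ≤ l') {n v : ℕ} (hv : l'.get? n = some v) :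
    l.get? n = some v := by
  have h' : List.IsPrefix (α := ℕ) l' l := h
  obtain ⟨t, rfl⟩ := h'
  have hv' : (show List ℕ from l')[n]? = some v := hv
  change (List.append (show List ℕ from l') t)[n]? = some v
  have : n < (show List ℕ from l').length := by
    by_contra hh
    rw [List.getElem?_eq_none (not_lt.mp hh)] at hv'
    cases hv'
  change ((show List ℕ from l') ++ t)[n]? = some v
  rw [List.getElem?_append_left this]
  exact hv'

lemma FSeq.exists_ext (l : FSeq) (m : ℕ) {S : Set ℕ} (hS : S.Infinite) :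
    ∃ n ∈ S, m ≤ n ∧ ∀ v : ℕ, ∃ l' : FSeq, l' ≤ l ∧ l'.get? n = some v := by
  obtain ⟨n, hn, hnm⟩ := hS.exists_gt (max m (show List ℕ from l).length)
  refine ⟨n, hn, ((le_max_left _ _).trans_lt hnm).le, fun v => ?_⟩
  have hl : (show List ℕ from l).length ≤ n := ((le_max_right _ _).trans_lt hnm).le
  refine ⟨(show List ℕ from l) ++ (List.replicate (n - (show List ℕ from l).length) 0 ++ [v]),
    List.prefix_append (α := ℕ) _ _, ?_⟩
  change ((show List ℕ from l) ++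
    (List.replicate (n - (show List ℕ from l).length) 0 ++ [v]))[n]? = some v
  rw [List.getElem?_append_right hl, List.getElem?_append_right (by simp)]
  simp

/-- The generic sequence meeting all conditions. -/
theorem sat_step (h : MAsc) {B : Set (Set ℕ)} (hB : #B < 𝔠) {I : Type} (hI : #I < 𝔠)
    (P : I → ℕ → Set ℕ) (hP : ∀ J : Finset I, Pos B (satJ P J)) :
    ∃ a : ℕ → ℕ, SF (B ∪ Set.range (fun j => {n | a n ∈ P j n})) := by
  classical
  let D : {F : Finset (Set ℕ) // (↑F : Set (Set ℕ)) ⊆ B} × Finset I × ℕ → Set FSeq :=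
    fun x => {l | ∃ n, x.2.2 ≤ n ∧ n ∈ (⋂ A ∈ x.1.1, A) ∧
      ∃ v, l.get? n = some v ∧ ∀ j ∈ x.2.1, v ∈ P j n}
  have hcard : #(Set.range D) < 𝔠 :=
    Cardinal.mk_range_le.trans_lt (mk_mul3_lt (mk_finsets_lt hB) (mk_finset_lt hI))
  obtain ⟨G, -, -, hGdir, hGD⟩ := cohen h FSeq (Set.range D) hcard (by
    rintro _ ⟨⟨⟨F, hF⟩, J, m⟩, rfl⟩ l
    obtain ⟨n, ⟨hn1, v, hv⟩, hmn, hex⟩ := l.exists_ext m (hP J F hF)
    obtain ⟨l', hl', hget⟩ := hex v
    exact ⟨l', ⟨n, hmn, hn1, v, hget, hv⟩, hl'⟩) (show FSeq from ([] : List ℕ))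
  have key : ∀ l ∈ G, ∀ l' ∈ G, ∀ n v v', l.get? n = some v → l'.get? n = some v' → v = v' := by
    intro l hl l' hl' n v v' h1 h2
    obtain ⟨r, _, hr1, hr2⟩ := hGdir l hl l' hl'
    have e1 := FSeq.get?_le hr1 h1
    have e2 := FSeq.get?_le hr2 h2
    rw [e1] at e2
    exact Option.some.inj e2
  refine ⟨fun n => if hh : ∃ v, ∃ l ∈ G, l.get? n = some v then hh.choose else 0, ?_⟩
  have hval : ∀ n v, (∃ l ∈ G, l.get? n = some v) →
      (if hh : ∃ v, ∃ l ∈ G, l.get? n = some v then hh.choose else 0) = v := by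
    rintro n v ⟨l, hl, hlv⟩
    have hh : ∃ v, ∃ l ∈ G, l.get? n = some v := ⟨v, l, hl, hlv⟩
    rw [dif_pos hh]
    obtain ⟨l', hl', hlv'⟩ := hh.choose_spec
    exact key l' hl' l hl n _ _ hlv' hlv
  refine SF_add _ (fun J F hF => ?_)
  refine Set.infinite_of_not_bddAbove (fun ⟨m, hm⟩ => ?_)
  obtain ⟨l, ⟨n, hn1, hn2, v, hn3, hn4⟩, hl⟩ := hGD (D ⟨⟨F, hF⟩, J, m + 1⟩) ⟨_, rfl⟩
  have : n ≤ m := hm ⟨hn2, by
    simp only [Set.mem_iInter]
    intro j hj
    change (if hh : ∃ v, ∃ l ∈ G, l.get? n = some v then hh.choose else 0) ∈ P j n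
    rw [hval n v ⟨l, hl, hn3⟩]
    exact hn4 j hj⟩
  change m + 1 ≤ n at hn1
  omega

/-- Finite sets on which `f` is injective, ordered by reverse inclusion. -/
def InjP (f : ℕ → ℕ) : Type := {s : Finset ℕ // Set.InjOn f s}

instance (f : ℕ → ℕ) : Preorder (InjP f) where
  le s t := t.1 ⊆ s.1
  le_refl s := Finset.Subset.refl _
  le_trans _ _ _ h1 h2 := h2.trans h1

instance (f : ℕ → ℕ) : Countable (InjP f) :=
  inferInstanceAs (Countable {s : Finset ℕ // Set.InjOn f s})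

/-- The Ramsey step. -/
theorem ramsey_step (h : MAsc) {B : Set (Set ℕ)} (hB : #B < 𝔠) (hSF : SF B) (f : ℕ → ℕ)
    (hf : ∀ k, ¬ Pos B (f ⁻¹' {k})) :
    ∃ S : Set ℕ, Set.InjOn f S ∧ SF (B ∪ {S}) := by
  classical
  choose Fk hFk1 hFk2 using fun k => not_pos (hf k)
  let D : {F : Finset (Set ℕ) // (↑F : Set (Set ℕ)) ⊆ B} × Unit × ℕ → Set (InjP f) :=
    fun x => {s | ∃ n, x.2.2 ≤ n ∧ n ∈ (⋂ A ∈ x.1.1, A) ∧ n ∈ s.1}
  have hcard : #(Set.range D) < 𝔠 :=
    Cardinal.mk_range_le.trans_lt (mk_mul3_lt (mk_finsets_lt hB)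
      (by simpa using Cardinal.one_lt_aleph0.trans Cardinal.aleph0_lt_continuum))
  obtain ⟨G, -, -, hGdir, hGD⟩ := cohen h (InjP f) (Set.range D) hcard (by
    rintro _ ⟨⟨⟨F, hF⟩, _, m⟩, rfl⟩ s
    have h1 := hSF (F ∪ s.1.biUnion (fun i => Fk (f i))) (by
      rw [Finset.coe_union, Finset.coe_biUnion]
      exact Set.union_subset hF (Set.iUnion₂_subset fun i _ => hFk1 _))
    have h2 : (⋃ i ∈ s.1, ((⋂ A ∈ Fk (f i), A) ∩ f ⁻¹' {f i})).Finite :=
      Set.Finite.biUnion (Finset.finite_toSet s.1) (fun i _ => hFk2 _)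
    obtain ⟨n, ⟨hn1, hn2⟩, hnm⟩ := (h1.sdiff h2).exists_gt m
    simp only [Set.mem_iInter, Finset.mem_union, Finset.mem_biUnion] at hn1
    have hnf : ∀ i ∈ s.1, f n ≠ f i := by
      intro i hi hfi
      refine hn2 (Set.mem_biUnion hi ⟨?_, hfi⟩)
      simp only [Set.mem_iInter]
      exact fun A hA => hn1 A (Or.inr ⟨i, hi, hA⟩)
    refine ⟨⟨insert n s.1, ?_⟩, ⟨n, hnm.le, ?_, Finset.mem_insert_self _ _⟩,
      Finset.subset_insert _ _⟩
    · rw [Finset.coe_insert]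
      intro a ha b hb hab
      rcases ha with rfl | ha <;> rcases hb with rfl | hb
      · rfl
      · exact absurd hab (hnf b hb)
      · exact absurd hab.symm (hnf a ha)
      · exact s.2 ha hb hab
    · simp only [Set.mem_iInter]
      exact fun A hA => hn1 A (Or.inl hA)) ⟨∅, by simp⟩
  refine ⟨{n | ∃ s ∈ G, n ∈ s.1}, ?_, SF_insert (fun F hF => ?_)⟩
  · rintro a ⟨s, hs, ha⟩ b ⟨t, ht, hb⟩ hab
    obtain ⟨r, _, hr1, hr2⟩ := hGdir s hs t ht
    exact r.2 (hr1 ha) (hr2 hb) hab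
  · refine Set.infinite_of_not_bddAbove (fun ⟨m, hm⟩ => ?_)
    obtain ⟨s, ⟨n, hn1, hn2, hn3⟩, hs⟩ := hGD (D ⟨⟨F, hF⟩, (), m + 1⟩) ⟨_, rfl⟩
    have : n ≤ m := hm ⟨hn2, s, hs, hn3⟩
    change m + 1 ≤ n at hn1
    omega

end Pool.Agent.Helper35.PP
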