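import Pool.Agent.Helper35.PP.Sat

/-!
# A saturated Ramsey ultrafilter: the recursion (module M2 of MP_505789_lc)
-/

namespace Pool.Agent.Helper35.PP

open Cardinal Set

lemma SF_iUnion_chain {α : Type} [LinearOrder α] [Nonempty α] (B : α → Set (Set ℕ))
    (hm : ∀ a b, a ≤ b → B a ⊆ B b) (hB : ∀ a, SF (B a)) : SF (⋃ a, B a) := by
  classical
  intro F hF
  have : ∃ a, (↑F : Set (Set ℕ)) ⊆ B a := by
    induction F using Finset.induction_on with
    | empty => exact ⟨Classical.arbitrary α, by simp⟩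
    | insert A F hA ih =>
      obtain ⟨a, ha⟩ := ih (fun X hX => hF (by simp [Finset.mem_coe.mp hX]))
      obtain ⟨b, hb⟩ := Set.mem_iUnion.mp (hF (Finset.mem_coe.mpr (Finset.mem_insert_self A F)))
      refine ⟨max a b, ?_⟩
      rw [Finset.coe_insert]
      exact Set.insert_subset (hm _ _ (le_max_right _ _) hb) (ha.trans (hm _ _ (le_max_left _ _)))
  obtain ⟨a, ha⟩ := this
  exact hB a F ha

lemma SF_empty : SF ∅ := by
  intro F hF
  have : F = ∅ := by
    have := Set.subset_empty_iff.mp hF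
    exact_mod_cast this
  subst this
  simpa using Set.infinite_univ

/-- Transfinite recursion of length `𝔠` solving `𝔠` many tasks. -/
theorem solve_tasks (h : MAsc) {T : Type} (hT : #T ≤ 𝔠) (Good : T → Set (Set ℕ) → Prop)
    (mono : ∀ t B B', B ⊆ B' → Good t B → Good t B')
    (step : ∀ (t : T) (B : Set (Set ℕ)), #B < 𝔠 → SF B →
      ∃ B' : Set (Set ℕ), B ⊆ B' ∧ #B' < 𝔠 ∧ SF B' ∧ Good t B') :
    ∃ B, SF B ∧ ∀ t, Good t B := by
  classical
  rcases isEmpty_or_nonempty T with hTe | hTn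
  · exact ⟨∅, SF_empty, fun t => (hTe.false t).elim⟩
  have hT' : #T ≤ #W := by rw [mk_W]; exact hT
  obtain ⟨e⟩ := (Cardinal.le_def _ _).mp hT'
  let tt : W → T := Function.invFun e
  have htt : ∀ t, ∃ w, tt w = t := fun t => ⟨e t, Function.leftInverse_invFun e.injective t⟩
  let ext : T → Set (Set ℕ) → Set (Set ℕ) := fun t B =>
    if hyp : #B < 𝔠 ∧ SF B then (step t B hyp.1 hyp.2).choose else ∅
  have hext : ∀ (t : T) (B : Set (Set ℕ)), #B < 𝔠 → SF B →
      B ⊆ ext t B ∧ #(ext t B) < 𝔠 ∧ SF (ext t B) ∧ Good t (ext t B) := by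
    intro t B h1 h2
    have : ext t B = (step t B h1 h2).choose := dif_pos ⟨h1, h2⟩
    rw [this]
    exact (step t B h1 h2).choose_spec
  let F : W → Set (Set ℕ) := wellFounded_lt.fix
    (fun w (ih : (v : W) → v < w → Set (Set ℕ)) => ext (tt w) (⋃ (v : Set.Iio w), ih v.1 v.2))
  have hF : ∀ w, F w = ext (tt w) (⋃ (v : Set.Iio w), F v.1) := by
    intro w
    exact wellFounded_lt.fix_eq _ w
  have key : ∀ w, (∀ v ≤ w, #(F v) < 𝔠 ∧ SF (F v) ∧ (∀ u ≤ v, F u ⊆ F v) ∧ Good (tt v) (F v)) := by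
    intro w
    induction w using WellFoundedLT.induction with
    | ind w ih =>
      have ih' : ∀ v < w, #(F v) < 𝔠 ∧ SF (F v) ∧ (∀ u ≤ v, F u ⊆ F v) ∧ Good (tt v) (F v) :=
        fun v hv => ih v hv v le_rfl
      intro v hv
      rcases lt_or_eq_of_le hv with hv | rfl
      · exact ih' v hv
      have h1 : #(⋃ (u : Set.Iio v), F u.1) < 𝔠 := by
        rw [Cardinal.card_iUnion_lt_iff_forall_of_isRegular (cont_regular h) (mk_Iio_W v)]
        exact fun u => (ih' u.1 u.2).1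
      have h2 : SF (⋃ (u : Set.Iio v), F u.1) := by
        rcases isEmpty_or_nonempty (Set.Iio v) with he | hn
        · simpa using SF_empty
        · exact SF_iUnion_chain (fun u : Set.Iio v => F u.1)
            (fun a b hab => (ih' b.1 b.2).2.2.1 a.1 hab) (fun a => (ih' a.1 a.2).2.1)
      obtain ⟨e1, e2, e3, e4⟩ := hext (tt v) _ h1 h2
      rw [← hF v] at e1 e2 e3 e4
      refine ⟨e2, e3, fun u hu => ?_, e4⟩
      rcases lt_or_eq_of_le hu with hu | rfl
      · exact (Set.subset_iUnion (fun u : Set.Iio v => F u.1) ⟨u, hu⟩).trans e1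
      · exact Set.Subset.refl _
  refine ⟨⋃ w, F w, ?_, fun t => ?_⟩
  · exact SF_iUnion_chain F (fun a b hab => (key b b le_rfl).2.2.1 a hab)
      (fun a => (key a a le_rfl).2.1)
  · obtain ⟨w, rfl⟩ := htt t
    exact mono _ _ _ (Set.subset_iUnion F w) (key w w le_rfl).2.2.2

lemma mk_union_lt {α : Type} {A B : Set α} (hA : #A < 𝔠) (hB : #B < 𝔠) : #(↑(A ∪ B) : Set α) < 𝔠 :=
  (Cardinal.mk_union_le _ _).trans_lt (Cardinal.add_lt_of_lt Cardinal.aleph0_le_continuum hA hB)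

lemma mk_single_lt {α : Type} (a : α) : #({a} : Set α) < 𝔠 := by
  simpa using Cardinal.one_lt_aleph0.trans Cardinal.aleph0_lt_continuum

/-- The three kinds of tasks. -/
abbrev Task : Type := Set ℕ ⊕ (ℕ → ℕ) ⊕ {S : Set (ℕ → Set ℕ) // #S < 𝔠}

theorem mk_Task_le (h : MAsc) : #Task ≤ 𝔠 := by
  have h1 : #(Set ℕ) ≤ 𝔠 := by simp
  have h2 : #(ℕ → ℕ) ≤ 𝔠 := by simp
  have h3 : #(ℕ → Set ℕ) ≤ 𝔠 := by
    rw [← Cardinal.power_def]; simp
  have h4 := mk_small_le h h3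
  simp only [Task, Cardinal.mk_sum, Cardinal.lift_id]
  exact Cardinal.add_le_of_le Cardinal.aleph0_le_continuum h1
    (Cardinal.add_le_of_le Cardinal.aleph0_le_continuum h2 h4)

/-- Being solved. -/
def GoodT : Task → Set (Set ℕ) → Prop
  | Sum.inl A, B => A ∈ B ∨ Aᶜ ∈ B
  | Sum.inr (Sum.inl f), B => ∃ S ∈ B, (∃ k, ∀ n ∈ S, f n = k) ∨ Set.InjOn f S
  | Sum.inr (Sum.inr S), B =>
      (∃ J : Finset S.1, (satJ (fun j : S.1 => j.1) J)ᶜ ∈ B) ∨
      ∃ a : ℕ → ℕ, ∀ j ∈ S.1, {n | a n ∈ j n} ∈ B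

/-- **Module M2** (basic form). -/
theorem exists_sat (h : MAsc) : ∃ U : Ultrafilter ℕ, (∀ s : Set ℕ, s.Finite → s ∉ U) ∧
    (∀ f : ℕ → ℕ, ∃ S ∈ U, (∃ k, ∀ n ∈ S, f n = k) ∨ Set.InjOn f S) ∧
    (∀ (I : Type), #I < 𝔠 → ∀ P : I → ℕ → Set ℕ,
      (∀ J : Finset I, {n | ∃ a, ∀ j ∈ J, a ∈ P j n} ∈ U) →
      ∃ a : ℕ → ℕ, ∀ j, {n | a n ∈ P j n} ∈ U) := by
  classical
  obtain ⟨B, hB, hgood⟩ := solve_tasks h (mk_Task_le h) GoodT (by
    rintro (A | f | S) B B' hBB hg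
    · exact hg.imp (fun x => hBB x) (fun x => hBB x)
    · obtain ⟨S, hS, hh⟩ := hg
      exact ⟨S, hBB hS, hh⟩
    · rcases hg with ⟨J, hJ⟩ | ⟨a, ha⟩
      · exact Or.inl ⟨J, hBB hJ⟩
      · exact Or.inr ⟨a, fun j hj => hBB (ha j hj)⟩) (by
    rintro (A | f | S) B hBc hBSF
    · by_cases hA : Pos B A
      · exact ⟨B ∪ {A}, Set.subset_union_left, mk_union_lt hBc (mk_single_lt _), SF_insert hA,
          Or.inl (Or.inr rfl)⟩
      · have hA' : Pos B Aᶜ := pos_of_not_pos hBSF (by rwa [compl_compl])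
        exact ⟨B ∪ {Aᶜ}, Set.subset_union_left, mk_union_lt hBc (mk_single_lt _), SF_insert hA',
          Or.inr (Or.inr rfl)⟩
    · by_cases hf : ∃ k, Pos B (f ⁻¹' {k})
      · obtain ⟨k, hk⟩ := hf
        exact ⟨B ∪ {f ⁻¹' {k}}, Set.subset_union_left, mk_union_lt hBc (mk_single_lt _),
          SF_insert hk, f ⁻¹' {k}, Or.inr rfl, Or.inl ⟨k, fun n hn => hn⟩⟩
      · push Not at hf
        obtain ⟨S, hS1, hS2⟩ := ramsey_step h hBc hBSF f hf
        exact ⟨B ∪ {S}, Set.subset_union_left, mk_union_lt hBc (mk_single_lt _), hS2, S,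
          Or.inr rfl, Or.inr hS1⟩
    · by_cases hJ : ∃ J : Finset S.1, Pos B (satJ (fun j : S.1 => j.1) J)ᶜ
      · obtain ⟨J, hJ⟩ := hJ
        exact ⟨B ∪ {(satJ (fun j : S.1 => j.1) J)ᶜ}, Set.subset_union_left,
          mk_union_lt hBc (mk_single_lt _), SF_insert hJ, Or.inl ⟨J, Or.inr rfl⟩⟩
      · push Not at hJ
        obtain ⟨a, ha⟩ := sat_step h hBc S.2 (fun j : S.1 => j.1)
          (fun J => pos_of_not_pos hBSF (hJ J))
        refine ⟨_, Set.subset_union_left, mk_union_lt hBc ?_, ha, Or.inr ⟨a, fun j hj => ?_⟩⟩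
        · exact Cardinal.mk_range_le.trans_lt S.2
        · exact Or.inr ⟨⟨j, hj⟩, rfl⟩)
  -- the ultrafilter
  have hne : (Filter.generate B).NeBot := by
    rw [Filter.generate_neBot_iff]
    intro t ht hfin
    have := hB hfin.toFinset (by simpa using ht)
    have h2 := this.nonempty
    obtain ⟨n, hn⟩ := h2
    refine ⟨n, ?_⟩
    simp only [Set.mem_iInter, Set.Finite.mem_toFinset] at hn
    exact Set.mem_sInter.mpr hn
  obtain ⟨U, hU⟩ : ∃ U : Ultrafilter ℕ, ∀ A, A ∈ U ↔ A ∈ B := by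
    refine ⟨Ultrafilter.of (Filter.generate B), fun A => ⟨fun hA => ?_, fun hA => ?_⟩⟩
    · rcases hgood (Sum.inl A) with h1 | h1
      · exact h1
      · have h2 : Aᶜ ∈ (Ultrafilter.of (Filter.generate B) : Filter ℕ) :=
          Ultrafilter.of_le _ (Filter.mem_generate_of_mem h1)
        exact absurd hA (Ultrafilter.compl_mem_iff_notMem.mp h2)
    · exact Ultrafilter.of_le _ (Filter.mem_generate_of_mem hA)
  refine ⟨U, fun s hs hsU => ?_, fun f => ?_, fun I hI P hP => ?_⟩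
  · have h1 := hB {s} (by simpa using (hU s).mp hsU)
    simp only [Finset.mem_singleton, Set.iInter_iInter_eq_left] at h1
    exact h1 hs
  · obtain ⟨S, hS, hh⟩ := hgood (Sum.inr (Sum.inl f))
    exact ⟨S, (hU S).mpr hS, hh⟩
  · have hSc : #(Set.range P) < 𝔠 := Cardinal.mk_range_le.trans_lt hI
    rcases hgood (Sum.inr (Sum.inr ⟨Set.range P, hSc⟩)) with ⟨J, hJ⟩ | ⟨a, ha⟩
    · exfalso
      have hpre : ∀ j : Set.range P, ∃ i, P i = j.1 := fun j => j.2
      choose g hg using hpre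
      have h1 := hP (J.image g)
      have h2 := (hU _).mpr hJ
      obtain ⟨n, hn1, hn2⟩ := (U.neBot.nonempty_of_mem (Filter.inter_mem h1 h2))
      obtain ⟨v, hv⟩ := hn1
      refine hn2 ⟨v, fun j hj => ?_⟩
      have := hv (g j) (Finset.mem_image_of_mem g hj)
      rwa [hg] at this
    · exact ⟨a, fun j => (hU _).mpr (ha (P j) ⟨j, rfl⟩)⟩

end Pool.Agent.Helper35.PP
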