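import Pool.Agent.Helper11.PP.Defs
import Pool.Agent.Helper35.PP.Ramsey

/-!
# The (U) step (module F3 of MP_505789_lc)
-/

set_option autoImplicit false

namespace Pool.Agent.Helper35.PP

open Pool.Agent.Helper11.PP

lemma sub_apply' (s : Nm) (w v : List ℕ) : sub s w v = s (w ++ v) := by
  simp [sub, Finsupp.comapDomain_apply]

lemma iota_apply' (J : Nm → Nm → ℕ) (i : ℕ) (s x : Nm) (w : List ℕ) :
    iota J i s x w = if s w ≠ 0 ∧ (∀ a ∈ w, a < i) then J (sub s w) (sub x w) else 0 := by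
  simp [iota]

lemma words_finite (i h : ℕ) : {w : List ℕ | (∀ a ∈ w, a < i) ∧ w.length ≤ h}.Finite := by
  have h1 : {l : List (Fin i) | l.length ≤ h}.Finite := List.finite_length_le (Fin i) h
  refine (h1.image (List.map (fun a : Fin i => (a : ℕ)))).subset ?_
  rintro w ⟨hw1, hw2⟩
  refine ⟨w.attach.map (fun a => ⟨a.1, hw1 a.1 a.2⟩), by simpa using hw2, ?_⟩
  simp [List.map_map, Function.comp_def]

lemma names_finite (i h : ℕ) : {s : Nm | IsName i h s}.Finite := by
  classical
  refine ((words_finite i h).toFinset.finsupp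
    (fun _ => Finset.range (2 ^ i + 1))).finite_toSet.subset ?_
  intro s hs
  rw [Finset.mem_coe, Finset.mem_finsupp_iff]
  refine ⟨fun w hw => ?_, fun w _ => ?_⟩
  · rw [Finsupp.mem_support_iff] at hw
    simpa using And.intro (hs.2.2 w hw).1 (hs.2.2 w hw).2.1
  · rw [Finset.mem_range]
    by_cases hw : s w = 0
    · rw [hw]; positivity
    · have := (hs.2.2 w hw).2.2
      omega

lemma points_finite (s : Nm) (N : ℕ) : {x : Nm | IsPoint s N x}.Finite := by
  classical
  refine (s.support.finsupp (fun _ => Finset.range N)).finite_toSet.subset ?_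
  intro x hx
  rw [Finset.mem_coe, Finset.mem_finsupp_iff]
  refine ⟨fun w hw => ?_, fun w hw => ?_⟩
  · rw [Finsupp.mem_support_iff] at hw ⊢
    exact fun h0 => hw (hx.1 w h0)
  · rw [Finsupp.mem_support_iff] at hw
    exact Finset.mem_range.mpr (hx.2.1 w hw)

/-- A point is determined by its set of values. -/
lemma point_ext {s x y : Nm} {N M : ℕ} (hx : IsPoint s N x) (hy : IsPoint s M y)
    (h : s.support.image x = s.support.image y) : x = y := by
  classical
  let fx : s.support → ℕ := fun w => x w.1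
  let fy : s.support → ℕ := fun w => y w.1
  have h1 : StrictMono fx := fun w w' hw =>
    hx.2.2 w.1 w'.1 (Finsupp.mem_support_iff.mp w.2) (Finsupp.mem_support_iff.mp w'.2) hw
  have h2 : StrictMono fy := fun w w' hw =>
    hy.2.2 w.1 w'.1 (Finsupp.mem_support_iff.mp w.2) (Finsupp.mem_support_iff.mp w'.2) hw
  have h3 : Set.range fx = Set.range fy := by
    ext n
    have := Finset.ext_iff.mp h n
    simp only [Finset.mem_image] at this
    constructor
    · rintro ⟨w, rfl⟩
      obtain ⟨w', hw', he⟩ := this.mp ⟨w.1, w.2, rfl⟩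
      exact ⟨⟨w', hw'⟩, he⟩
    · rintro ⟨w, rfl⟩
      obtain ⟨w', hw', he⟩ := this.mpr ⟨w.1, w.2, rfl⟩
      exact ⟨⟨w', hw'⟩, he⟩
  have h4 : fx = fy := (StrictMono.range_inj h1 h2).mp h3
  ext w
  by_cases hw : s w = 0
  · rw [hx.1 w hw, hy.1 w hw]
  · exact congrFun h4 ⟨w, Finsupp.mem_support_iff.mpr hw⟩

lemma point_card {s x : Nm} {N : ℕ} (hx : IsPoint s N x) :
    (s.support.image x).card = s.support.card := by
  classical
  refine Finset.card_image_of_injOn ?_
  intro w hw w' hw' he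
  rw [Finset.mem_coe, Finsupp.mem_support_iff] at hw hw'
  rcases lt_trichotomy w w' with h | h | h
  · exact absurd he (hx.2.2 w w' hw hw' h).ne
  · exact h
  · exact absurd he (hx.2.2 w' w hw' hw h).ne'

/-- **Module F3.** -/
theorem st_U (hre : ST_reindex) : ST_U := by
  classical
  intro h i N'
  have : Finite {s : Nm | IsName i h s} := (names_finite i h).to_subtype
  obtain ⟨N, hN⟩ := finite_ramsey_fintype (ι := {s : Nm | IsName i h s})
    (fun s => s.1.support.card) N'
  refine ⟨N, fun p hp hpi hpN C => ?_⟩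
  subst hpi
  obtain ⟨H, hHS, hHc, hH⟩ := hN (Finset.range p.N) (by simpa using hpN)
    (fun s A => ∃ y, IsPoint s.1 p.N y ∧ s.1.support.image y = A ∧ p.c (s.1, y) ∈ C)
  have hHlt : ∀ l (hl : l < N'), H.orderEmbOfFin hHc ⟨l, hl⟩ < p.N := fun l hl =>
    Finset.mem_range.mp (hHS (Finset.orderEmbOfFin_mem H hHc _))
  let g : ℕ → ℕ := fun l => if hl : l < N' then H.orderEmbOfFin hHc ⟨l, hl⟩ else 0
  have hg : ∀ l (hl : l < N'), g l = H.orderEmbOfFin hHc ⟨l, hl⟩ := fun l hl => dif_pos hl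
  obtain ⟨q, hq1, hq2, hq3, hq4, hq5⟩ := hre h p hp N' (fun _ l => g l)
    (fun s l hl => by simpa only [hg l hl] using hHlt l hl)
    (fun s t l l' hll hl' => by
      simp only [hg l (hll.trans hl'), hg l' hl']
      exact (H.orderEmbOfFin hHc).strictMono hll)
  refine ⟨q, hq1, hq2, hq3, hq4, fun s hs => ?_⟩
  -- all points have the same colour
  have key : ∀ x x', IsPoint s N' x → IsPoint s N' x' → q.c (s, x) ∈ C → q.c (s, x') ∈ C := by
    intro x x' hx hx' hxC
    obtain ⟨i1, e1⟩ := hq5 s x hs hx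
    obtain ⟨i2, e2⟩ := hq5 s x' hs hx'
    rw [e1] at hxC
    rw [e2]
    have himg : ∀ z, IsPoint s N' z →
        s.support.image (iota (fun _ x' => g (x' [])) p.i s z) ⊆ H := by
      intro z hz n hn
      obtain ⟨w, hw, rfl⟩ := Finset.mem_image.mp hn
      rw [Finsupp.mem_support_iff] at hw
      rw [iota_apply', if_pos ⟨hw, (hs.2.2 w hw).1⟩, sub_apply', List.append_nil, hg _ (hz.2.1 w hw)]
      exact Finset.orderEmbOfFin_mem H hHc _
    have := (hH ⟨s, hs⟩ _ _ (himg x hx) (himg x' hx') (point_card i1) (point_card i2)).mp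
      ⟨_, i1, rfl, hxC⟩
    obtain ⟨y, hy1, hy2, hy3⟩ := this
    rwa [point_ext hy1 i2 hy2] at hy3
  by_cases hex : ∃ x, IsPoint s N' x ∧ q.c (s, x) ∈ C
  · obtain ⟨x, hx, hxC⟩ := hex
    refine Or.inl ?_
    rintro _ ⟨x', hx', rfl⟩
    rw [hq4] at hx'
    exact key x x' hx hx' hxC
  · refine Or.inr ?_
    rw [Set.disjoint_left]
    rintro _ ⟨x', hx', rfl⟩ hc
    rw [hq4] at hx'
    exact hex ⟨x', hx', hc⟩

end Pool.Agent.Helper35.PP
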